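import Pool.Agent.Lib.MP_edb5be_nt.PD.Iface2

/-!
Project PD (MP_edb5be_nt), second stage: module EWLOW.
-/

set_option autoImplicit false

namespace Pool.Agent.Lib.MP_edb5be_nt.PD.H75

open Finset Pool.Agent.Lib.MP_edb5be_nt.EX Pool.Agent.Lib.MP_edb5be_nt.PD

theorem wt_nonneg (u : List ℕ) : 0 ≤ wt u := by unfold wt; positivity

theorem gw_nonneg (m b : ℕ) (z : ℤ) : 0 ≤ Gw m b z := by
  unfold Gw su
  exact Finset.sum_nonneg fun u _ => mul_nonneg (wt_nonneg u) zero_le_one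

theorem ewlow (h1 : BwFStatement) (h2 : PLocStatement) (h3 : WindowStatement) :
    EwLowStatement := by
  obtain ⟨-, -, hP, -, hF⟩ := h1
  obtain ⟨c, hc, hloc⟩ := h2
  obtain ⟨hlb, hwin⟩ := h3
  refine ⟨c, hc, fun L J m z hL hJ hJL hm => ?_⟩
  obtain ⟨hm1, hm2⟩ := (hwin L hL).2 m hm
  have hmIL : ((L : ℤ) + lb m - 2 * m) ^ 2 ≤ L := (Finset.mem_filter.1 hm).2
  obtain ⟨-, -, -, hlb2⟩ := hlb m
  have hJ4 : 4 * J ≤ L := by nlinarith
  rw [hF J z, Finset.mul_sum]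
  have hsub : range (4 * J + 1) ⊆ range (L + lb m + 1) := by
    intro s hs
    rw [Finset.mem_range] at hs ⊢
    omega
  unfold Ew
  refine le_trans (Finset.sum_le_sum fun s hs => ?_)
    (Finset.sum_le_sum_of_subset_of_nonneg hsub fun s _ _ =>
      mul_nonneg (hP _ _).1 (gw_nonneg _ _ _))
  refine mul_le_mul_of_nonneg_right ?_ (gw_nonneg _ _ _)
  rw [Finset.mem_range] at hs
  refine hloc (m - J) (L + lb m - s) L hL (by omega) (by omega) ?_
  have e1 : ((L + lb m - s : ℕ) : ℤ) = (L : ℤ) + lb m - s := by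
    rw [Nat.cast_sub (by omega)]; push_cast; ring
  have e2 : ((m - J : ℕ) : ℤ) = (m : ℤ) - J := Nat.cast_sub (by omega)
  rw [e1, e2]
  have hs' : (s : ℤ) ≤ 4 * J := by exact_mod_cast Nat.lt_succ_iff.1 hs
  have hs0 : (0 : ℤ) ≤ s := Int.natCast_nonneg s
  have hy : (2 * (J : ℤ) - s) ^ 2 ≤ 4 * (J : ℤ) ^ 2 := by nlinarith
  have hJL' : 16 * (J : ℤ) ^ 2 ≤ L := by exact_mod_cast hJL
  have hx := hmIL
  set X : ℤ := (L : ℤ) + lb m - 2 * m with hX
  set Y : ℤ := 2 * (J : ℤ) - s with hY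
  have e3 : (L : ℤ) + lb m - s - 2 * (m - J) = X + Y := by rw [hX, hY]; ring
  rw [e3]
  nlinarith [sq_nonneg (X - Y), sq_nonneg (X + Y), Int.natCast_nonneg L]

end Pool.Agent.Lib.MP_edb5be_nt.PD.H75
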